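import Mathlib

/-!
# The diagonal hypergraph Ramsey number `r_k(k+1)` grows like a tower of height linear in `k`

`r_k(k+1)` is the least `n` such that every red/blue colouring of the `k`-subsets of an `n`-set has a
`(k+1)`-set all of whose `k`-subsets have the same colour.

Main result: `twr (k/2 - 6) < r_k(k+1) ≤ twr (k+3)` for all `k ≥ 2`; in particular there is a
constant `c > 0` with `r_k(k+1) ≥ twr (c k)` for all large `k`, with two colours only.

Idea of the lower bound. Take a colouring `c` of the increasing `h`-tuples of `[n]` by three colours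
in which the tuples `(a_1..a_h)` and `(a_2..a_{h+1})` always get different colours (iterated shift
graphs, `n` a tower of height `h - 4`).  A `k`-set `A`, `k ≥ 2h+4`, has a left word (the colours of
its first three windows of length `h`) and a right word (its last three windows).  The colour of `A`
is `F (left word, right word)` for a suitable table `F`.  In a `(k+1)`-set `S` remove the first, the
last, or a middle element: the pairs of words are `(x', y)`, `(x, y')`, `(x, y)`, where `x'` is a
shift of `x` and `y` is a shift of `y'`; the table `F` never gives these three pairs one value.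
-/

namespace Pool.Agent.Results.MP_3aefc9_co.Tower

/-- The tower function: `twr 1 = 2` and `twr (i+1) = 2 ^ twr i` (with the convention
`twr 0 = 1`). -/
def twr : ℕ → ℕ
  | 0 => 1
  | (i + 1) => 2 ^ twr i

/-- `Arrows n k s t`: for every red/blue colouring of the `k`-subsets of an `n`-element set there is
a set of `s` points all of whose `k`-subsets are red, or a set of `t` points all of whose
`k`-subsets are blue.  (`true` is red, `false` is blue; only the values of `col` on the sets with
exactly `k` elements matter.) -/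
def Arrows (n k s t : ℕ) : Prop :=
  ∀ col : Finset (Fin n) → Bool,
    (∃ T : Finset (Fin n), T.card = s ∧ ∀ e ⊆ T, e.card = k → col e = true) ∨
    (∃ T : Finset (Fin n), T.card = t ∧ ∀ e ⊆ T, e.card = k → col e = false)

/-- The Ramsey number `r_k(s,t)`: the least `n` with `Arrows n k s t`. -/
noncomputable def ramsey (k s t : ℕ) : ℕ := sInf {n | Arrows n k s t}

/-! ## Lower bound -/

/-- The shift of a sequence. -/
def sh (a : ℕ → ℕ) : ℕ → ℕ := fun i => a (i + 1)

/-- `Good h n q`: there is a colouring of sequences by `q` colours that depends only on the first `h`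
entries and gives different colours to each increasing sequence with entries below `n` and to its
shift. -/
def Good (h n q : ℕ) : Prop :=
  ∃ c : (ℕ → ℕ) → ℕ, (∀ a, c a < q) ∧ (∀ a b, (∀ i < h, a i = b i) → c a = c b) ∧
    ∀ a : ℕ → ℕ, (∀ i < h, a i < a (i + 1)) → (∀ i ≤ h, a i < n) → c a ≠ c (sh a)

theorem Good.mono {h n q q' : ℕ} (H : Good h n q) (hq : q ≤ q') : Good h n q' := by
  obtain ⟨c, h1, h2, h3⟩ := H
  exact ⟨c, fun a => lt_of_lt_of_le (h1 a) hq, h2, h3⟩

theorem good_one (n : ℕ) (hn : 0 < n) : Good 1 n n := by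
  refine ⟨fun a => a 0 % n, fun a => Nat.mod_lt _ hn, fun a b hab => ?_, fun a h1 h2 => ?_⟩
  · simp [hab 0 (by norm_num)]
  · have e0 := h2 0 (by norm_num)
    have e1 := h2 1 (by norm_num)
    have := h1 0 (by norm_num)
    simp only [sh]
    rw [Nat.mod_eq_of_lt e0, Nat.mod_eq_of_lt e1]
    simp only [zero_add] at this
    omega

/-- Recolouring with one more window. -/
theorem Good.step1 {h n q q' : ℕ} (H : Good h n q) (g : ℕ → ℕ → ℕ)
    (hg1 : ∀ x y : Fin q, g x y < q')
    (hg2 : ∀ x y z : Fin q, x ≠ y → y ≠ z → g x y ≠ g y z) :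
    Good (h + 1) n q' := by
  obtain ⟨c, h1, h2, h3⟩ := H
  refine ⟨fun a => g (c a) (c (sh a)), fun a => hg1 ⟨_, h1 _⟩ ⟨_, h1 _⟩, fun a b hab => ?_,
    fun a ha1 ha2 => ?_⟩
  · have e1 : c a = c b := h2 _ _ (fun i hi => hab i (by omega))
    have e2 : c (sh a) = c (sh b) := h2 _ _ (fun i hi => hab (i + 1) (by omega))
    simp only [e1, e2]
  · have e1 : c a ≠ c (sh a) :=
      h3 a (fun i hi => ha1 i (by omega)) (fun i hi => ha2 i (by omega))
    have e2 : c (sh a) ≠ c (sh (sh a)) :=
      h3 (sh a) (fun i hi => ha1 (i + 1) (by omega)) (fun i hi => ha2 (i + 1) (by omega))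
    exact hg2 ⟨_, h1 _⟩ ⟨_, h1 _⟩ ⟨_, h1 _⟩ (by simpa using e1) (by simpa using e2)

/-- Recolouring with two more windows. -/
theorem Good.step2 {h n q q' : ℕ} (H : Good h n q) (g : ℕ → ℕ → ℕ → ℕ)
    (hg1 : ∀ x y z : Fin q, g x y z < q')
    (hg2 : ∀ x y z w : Fin q, x ≠ y → y ≠ z → z ≠ w → g x y z ≠ g y z w) :
    Good (h + 2) n q' := by
  obtain ⟨c, h1, h2, h3⟩ := H
  refine ⟨fun a => g (c a) (c (sh a)) (c (sh (sh a))),
    fun a => hg1 ⟨_, h1 _⟩ ⟨_, h1 _⟩ ⟨_, h1 _⟩, fun a b hab => ?_, fun a ha1 ha2 => ?_⟩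
  · have e1 : c a = c b := h2 _ _ (fun i hi => hab i (by omega))
    have e2 : c (sh a) = c (sh b) := h2 _ _ (fun i hi => hab (i + 1) (by omega))
    have e3 : c (sh (sh a)) = c (sh (sh b)) := h2 _ _ (fun i hi => hab (i + 1 + 1) (by omega))
    simp only [e1, e2, e3]
  · have e1 : c a ≠ c (sh a) :=
      h3 a (fun i hi => ha1 i (by omega)) (fun i hi => ha2 i (by omega))
    have e2 : c (sh a) ≠ c (sh (sh a)) :=
      h3 (sh a) (fun i hi => ha1 (i + 1) (by omega)) (fun i hi => ha2 (i + 1) (by omega))
    have e3 : c (sh (sh a)) ≠ c (sh (sh (sh a))) :=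
      h3 (sh (sh a)) (fun i hi => ha1 (i + 1 + 1) (by omega))
        (fun i hi => ha2 (i + 1 + 1) (by omega))
    exact hg2 ⟨_, h1 _⟩ ⟨_, h1 _⟩ ⟨_, h1 _⟩ ⟨_, h1 _⟩ (by simpa using e1) (by simpa using e2)
      (by simpa using e3)

/-- Different numbers below `2 ^ p` differ in some bit. -/
theorem exists_bit {p x y : ℕ} (hx : x < 2 ^ p) (hy : y < 2 ^ p) (hxy : x ≠ y) :
    ∃ i < p, x.testBit i ≠ y.testBit i := by
  by_contra hcon
  push Not at hcon
  apply hxy
  apply Nat.eq_of_testBit_eq
  intro i
  by_cases hi : i < p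
  · exact hcon i hi
  · have h2 : 2 ^ p ≤ 2 ^ i := Nat.pow_le_pow_right (by norm_num) (not_lt.mp hi)
    rw [Nat.testBit_lt_two_pow (lt_of_lt_of_le hx h2), Nat.testBit_lt_two_pow (lt_of_lt_of_le hy h2)]

open Classical in
/-- A position where the bits of `x` and `y` differ, together with the bit of `x` there. -/
noncomputable def bitcol (p x y : ℕ) : ℕ :=
  if h : ∃ i < p, x.testBit i ≠ y.testBit i then
    2 * h.choose + (if x.testBit h.choose then 1 else 0) else 0

theorem Good.log {h n q p : ℕ} (H : Good h n q) (hq : q ≤ 2 ^ p) (hp : 0 < p) :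
    Good (h + 1) n (2 * p) := by
  apply (H.mono hq).step1 (bitcol p)
  · intro x y
    unfold bitcol
    split_ifs with h1 h2
    · have := h1.choose_spec.1
      omega
    · have := h1.choose_spec.1
      omega
    · omega
  · intro x y z hxy hyz
    have A := exists_bit x.2 y.2 (fun h => hxy (Fin.ext h))
    have B := exists_bit y.2 z.2 (fun h => hyz (Fin.ext h))
    unfold bitcol
    rw [dif_pos A, dif_pos B]
    have a2 := A.choose_spec.2
    set i := A.choose with hi
    set j := B.choose with hj
    intro heq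
    have hij : i = j := by
      split_ifs at heq <;> omega
    rw [← hij] at heq
    cases hxi : (x : ℕ).testBit i <;> cases hyi : (y : ℕ).testBit i <;> simp_all

/-- The six pairs in a set of four elements. -/
def sixTab : List (List ℕ) :=
  [[0, 1], [0, 2], [0, 3], [1, 2], [1, 3], [2, 3]]

/-- an element of the x-th pair that is not in the y-th pair -/
def six (x y : ℕ) : ℕ :=
  (((sixTab.getD x []).filter (fun v => v ∉ sixTab.getD y [])).getD 0 0)

theorem Good.six {h n : ℕ} (H : Good h n 6) : Good (h + 1) n 4 := by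
  apply H.step1 Tower.six
  · decide
  · decide

/-- Remove the colour `3`. -/
def four (x y z : ℕ) : ℕ :=
  if y ≠ 3 then y else
    if x ≠ 0 ∧ z ≠ 0 then 0 else if x ≠ 1 ∧ z ≠ 1 then 1 else 2

theorem Good.four {h n : ℕ} (H : Good h n 4) : Good (h + 2) n 3 := by
  apply H.step2 Tower.four
  · decide
  · decide

theorem two_le_twr (i : ℕ) (hi : 1 ≤ i) : 2 ≤ twr i := by
  obtain ⟨j, rfl⟩ : ∃ j, i = j + 1 := ⟨i - 1, by omega⟩
  have : ∀ j, 1 ≤ twr j := by
    intro j
    cases j with
    | zero => simp [twr]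
    | succ j => exact Nat.one_le_two_pow
  calc 2 = 2 ^ 1 := rfl
    _ ≤ 2 ^ twr j := Nat.pow_le_pow_right (by norm_num) (this j)

theorem good_tower (t : ℕ) (ht : 1 ≤ t) : Good (t + 4) (twr t) 3 := by
  have key : ∀ j, j + 1 ≤ t → Good (j + 1) (twr t) (4 * twr (t - j)) := by
    intro j
    induction j with
    | zero =>
      intro _
      have h2 := two_le_twr t ht
      exact (good_one (twr t) (by omega)).mono (by simp only [Nat.sub_zero]; omega)
    | succ j ih =>
      intro hj
      have h1 := ih (by omega)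
      have e : t - j = (t - (j + 1)) + 1 := by omega
      rw [e] at h1
      have h2 := two_le_twr (t - (j + 1)) (by omega)
      have e2 : 4 * twr (t - (j + 1) + 1) ≤ 2 ^ (2 + twr (t - (j + 1))) := by
        rw [pow_add]
        exact le_of_eq rfl
      exact (h1.log e2 (by omega)).mono (by omega)
  have h8 : Good t (twr t) 8 := by
    have := key (t - 1) (by omega)
    have e1 : t - 1 + 1 = t := by omega
    have e2 : t - (t - 1) = 1 := by omega
    rw [e1, e2] at this
    exact this
  have h6 : Good (t + 1) (twr t) 6 := h8.log (p := 3) (by norm_num) (by norm_num)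
  have h4 : Good (t + 2) (twr t) 4 := h6.six
  exact h4.four


/-- The table: row `9p+3q+r`, bit `9u+3v+w`. -/
def rows : List ℕ := [0, 0, 0, 12058664, 0, 12058664, 12058664, 11536424, 0, 0, 101568, 101568,
  0, 0, 0, 623808, 101568, 0, 0, 101568, 101568, 12058664, 0, 12058664, 0, 0, 0]

/-- The two-colouring of pairs of words of length three. -/
def F (p q r u v w : ℕ) : Bool := (rows.getD (9 * p + 3 * q + r) 0).testBit (9 * u + 3 * v + w)

theorem F_spec : ∀ p q r s t u v z : Fin 3, p ≠ q → q ≠ r → r ≠ s → t ≠ u → u ≠ v → v ≠ z →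
    ¬ (F p q r u v z = F q r s u v z ∧ F p q r u v z = F p q r t u v) := by
  decide +kernel

theorem F_spec' (w : ℕ → ℕ) (hw : ∀ i, w i < 3) (j : ℕ) (h0 : ∀ i < 3, w i ≠ w (i + 1))
    (h1 : ∀ i < 3, w (j + i) ≠ w (j + i + 1)) :
    ¬ (F (w 0) (w 1) (w 2) (w (j + 1)) (w (j + 2)) (w (j + 3)) =
        F (w 1) (w 2) (w 3) (w (j + 1)) (w (j + 2)) (w (j + 3)) ∧
      F (w 0) (w 1) (w 2) (w (j + 1)) (w (j + 2)) (w (j + 3)) =
        F (w 0) (w 1) (w 2) (w j) (w (j + 1)) (w (j + 2))) := by
  have := F_spec ⟨w 0, hw 0⟩ ⟨w 1, hw 1⟩ ⟨w 2, hw 2⟩ ⟨w 3, hw 3⟩ ⟨w j, hw j⟩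
    ⟨w (j + 1), hw _⟩ ⟨w (j + 2), hw _⟩ ⟨w (j + 3), hw _⟩
    (by simpa using h0 0 (by norm_num)) (by simpa using h0 1 (by norm_num))
    (by simpa using h0 2 (by norm_num)) (by simpa using h1 0 (by norm_num))
    (by simpa using h1 1 (by norm_num)) (by simpa using h1 2 (by norm_num))
  exact this

/-- Extend a tuple by zeros. -/
def ext {k n : ℕ} (b : Fin k → Fin n) : ℕ → ℕ := fun i => if h : i < k then (b ⟨i, h⟩ : ℕ) else 0

theorem not_arrows {h n k : ℕ} (H : Good h n 3) (hk : 2 * (h + 2) ≤ k) :
    ¬ Arrows n k (k + 1) (k + 1) := by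
  obtain ⟨c, c1, c2, c3⟩ := H
  intro hA
  set W : (Fin k → Fin n) → ℕ → ℕ := fun b i => c (fun j => ext b (i + j)) with hW
  set Φ : (Fin k → Fin n) → Bool := fun b =>
    F (W b 0) (W b 1) (W b 2) (W b (k - h - 2)) (W b (k - h - 1)) (W b (k - h)) with hΦ
  set col : Finset (Fin n) → Bool := fun e =>
    if he : e.card = k then Φ (e.orderEmbOfFin he) else true with hcol
  have main : ∀ (T : Finset (Fin n)) (β : Bool), T.card = k + 1 →
      (∀ e ⊆ T, e.card = k → col e = β) → False := by
    intro T β hT hmono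
    set a : Fin (k + 1) ↪o Fin n := T.orderEmbOfFin hT with ha
    have hb : ∀ j : Fin (k + 1), Φ (fun i => a (j.succAbove i)) = β := by
      intro j
      have hc : (T.erase (a j)).card = k := by
        rw [Finset.card_erase_of_mem (Finset.orderEmbOfFin_mem _ _ _), hT]
        rfl
      have h1 := hmono (T.erase (a j)) (Finset.erase_subset _ _) hc
      rw [hcol] at h1
      simp only [hc, dif_pos] at h1
      rw [← h1]
      congr 1
      apply Finset.orderEmbOfFin_unique
      · intro x
        rw [Finset.mem_erase]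
        refine ⟨fun h => Fin.succAbove_ne j x (a.injective h), Finset.orderEmbOfFin_mem _ _ _⟩
      · intro x y hxy
        exact a.strictMono (Fin.strictMono_succAbove j hxy)
    set w : ℕ → ℕ := fun i => c (fun j => ext a (i + j)) with hw
    have e1 : ∀ (j : Fin (k + 1)) (i : ℕ), i + h ≤ j → W (fun i => a (j.succAbove i)) i = w i := by
      intro j i hij
      apply c2
      intro l hl
      have hj := j.2
      have hlt : i + l < (j : ℕ) := by omega
      simp only [ext]
      rw [dif_pos (by omega), dif_pos (by omega)]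
      congr 2
      have : (⟨i + l, by omega⟩ : Fin k).castSucc < j := by
        rw [Fin.lt_def]; simpa using hlt
      rw [Fin.succAbove_of_castSucc_lt _ _ this]
      rfl
    have e2 : ∀ (j : Fin (k + 1)) (i : ℕ), (j : ℕ) ≤ i → i + h ≤ k →
        W (fun i => a (j.succAbove i)) i = w (i + 1) := by
      intro j i hij hik
      apply c2
      intro l hl
      have hj := j.2
      simp only [ext]
      rw [dif_pos (by omega), dif_pos (by omega)]
      congr 2
      have : j ≤ (⟨i + l, by omega⟩ : Fin k).castSucc := by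
        rw [Fin.le_def]; simp; omega
      rw [Fin.succAbove_of_le_castSucc _ _ this]
      ext
      simp
      omega
    have e3 : ∀ i, i + h ≤ k → w i ≠ w (i + 1) := by
      intro i hik
      have := c3 (fun j => ext a (i + j)) ?_ ?_
      · have e : (sh fun j => ext a (i + j)) = (fun j => ext a (i + 1 + j)) := by
          funext j
          simp only [sh]
          congr 1
          omega
        rw [e] at this
        exact this
      · intro l hl
        simp only [ext]
        rw [dif_pos (by omega), dif_pos (by omega)]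
        apply a.strictMono
        rw [Fin.lt_def]
        simp
      · intro l hl
        simp only [ext]
        rw [dif_pos (by omega)]
        exact Fin.is_lt _
    have wlt : ∀ i, w i < 3 := fun i => c1 _
    -- the three deletions
    have d0 := hb 0
    have d1 := hb ⟨h + 2, by omega⟩
    have d2 := hb ⟨k, by omega⟩
    have hk' : k - h - 2 + 2 + h = k := by omega
    obtain ⟨j, hj⟩ : ∃ j, k = h + 2 + j := ⟨k - (h + 2), by omega⟩
    have s1 : k - h - 2 = j := by omega
    have s2 : k - h - 1 = j + 1 := by omega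
    have s3 : k - h = j + 2 := by omega
    simp only [hΦ] at d0 d1 d2
    rw [s1, s2, s3] at d0 d1 d2
    rw [e2 0 0 (by simp) (by omega), e2 0 1 (by simp) (by omega), e2 0 2 (by simp) (by omega),
      e2 0 j (by simp) (by omega), e2 0 (j + 1) (by simp) (by omega),
      e2 0 (j + 2) (by simp) (by omega)] at d0
    rw [e1 _ 0 (by simp), e1 _ 1 (by simp; omega), e1 _ 2 (by simp; omega),
      e2 _ j (by simp; omega) (by omega), e2 _ (j + 1) (by simp; omega) (by omega),
      e2 _ (j + 2) (by simp; omega) (by omega)] at d1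
    rw [e1 _ 0 (by simp; omega), e1 _ 1 (by simp; omega), e1 _ 2 (by simp; omega),
      e1 _ j (by simp; omega), e1 _ (j + 1) (by simp; omega),
      e1 _ (j + 2) (by simp; omega)] at d2
    refine F_spec' w wlt j (fun i hi => e3 i (by omega)) (fun i hi => ?_) ⟨?_, ?_⟩
    · exact e3 (j + i) (by omega)
    · rw [d1]; exact d0.symm
    · rw [d1, d2]
  rcases hA col with ⟨T, hT, h⟩ | ⟨T, hT, h⟩
  · exact main T true hT h
  · exact main T false hT h

/-- Tower lower bound. -/
theorem lower (t k : ℕ) (ht : 1 ≤ t) (hk : 2 * t + 12 ≤ k) : ¬ Arrows (twr t) k (k + 1) (k + 1) :=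
  not_arrows (good_tower t ht) (by omega)

/-! ## Upper bound (Erdős and Rado) -/

/-- Version for finite sets of natural numbers with at least `m` elements. -/
def ArrN (m k s t : ℕ) : Prop :=
  ∀ V : Finset ℕ, m ≤ V.card → ∀ χ : Finset ℕ → Bool,
    (∃ T ⊆ V, T.card = s ∧ ∀ e ⊆ T, e.card = k → χ e = true) ∨
    (∃ T ⊆ V, T.card = t ∧ ∀ e ⊆ T, e.card = k → χ e = false)

theorem ArrN.arrows {m k s t : ℕ} (H : ArrN m k s t) : Arrows m k s t := by
  intro col
  let emb : Fin m ↪ ℕ := Fin.valEmbedding
  let back : Finset ℕ → Finset (Fin m) := fun D => Finset.univ.filter (fun x => (x : ℕ) ∈ D)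
  have hback : ∀ e : Finset (Fin m), back (e.map emb) = e := by
    intro e
    ext x
    simp only [back, Finset.mem_filter, Finset.mem_univ, true_and, Finset.mem_map]
    constructor
    · rintro ⟨y, hy, hxy⟩
      have : y = x := Fin.ext hxy
      rwa [this] at hy
    · intro hx
      exact ⟨x, hx, rfl⟩
  have hfwd : ∀ T ⊆ Finset.range m, (back T).map emb = T := by
    intro T hT
    ext x
    simp only [back, Finset.mem_map, Finset.mem_filter, Finset.mem_univ, true_and]
    constructor
    · rintro ⟨y, hy, rfl⟩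
      exact hy
    · intro hx
      exact ⟨⟨x, Finset.mem_range.mp (hT hx)⟩, hx, rfl⟩
  have aux : ∀ (T : Finset ℕ) (r : ℕ) (β : Bool), T ⊆ Finset.range m → T.card = r →
      (∀ e ⊆ T, e.card = k → col (back e) = β) →
      ∃ T' : Finset (Fin m), T'.card = r ∧ ∀ e ⊆ T', e.card = k → col e = β := by
    intro T r β hT hr h
    refine ⟨back T, ?_, fun e he hk => ?_⟩
    · rw [← hr, ← hfwd T hT, Finset.card_map, hfwd T hT]
    · have h1 := h (e.map emb) ?_ (by rw [Finset.card_map, hk])
      · rwa [hback] at h1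
      · rw [← hfwd T hT]
        exact Finset.map_subset_map.mpr he
  rcases H (Finset.range m) (by simp) (fun e => col (back e)) with ⟨T, hT, hr, h⟩ | ⟨T, hT, hr, h⟩
  · left; exact aux T s true hT hr h
  · right; exact aux T t false hT hr h

/-- End-homogeneous sets. -/
theorem endhom (k B M : ℕ) (χ : Finset ℕ → Bool) (hB : M.choose k ≤ B) :
    ∀ (j : ℕ) (A S : Finset ℕ), (∀ a ∈ A, ∀ s ∈ S, a < s) → A.card + j ≤ M + 1 →
      (2 * 2 ^ B) ^ j ≤ S.card →
      (∀ D ⊆ A, D.card = k + 1 → ∀ x ∈ S, ∀ y ∈ S, χ (insert x D) = χ (insert y D)) →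
      ∃ T ⊆ S, T.card = j ∧ ∀ D ⊆ A ∪ T, D.card = k + 1 → ∀ x ∈ T, ∀ y ∈ T,
        (∀ d ∈ D, d < x) → (∀ d ∈ D, d < y) → χ (insert x D) = χ (insert y D) := by
  intro j
  induction j with
  | zero =>
    intro A S _ _ _ _
    exact ⟨∅, Finset.empty_subset _, rfl, fun D _ _ x hx => by simp at hx⟩
  | succ j ih =>
    intro A S hAS hcard hS hH
    have hpos : 0 < (2 * 2 ^ B) ^ j := by positivity
    have hSne : S.Nonempty := by
      rw [← Finset.card_pos]
      refine lt_of_lt_of_le ?_ hS
      positivity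
    set v := S.min' hSne with hv
    have hvS : v ∈ S := Finset.min'_mem _ _
    have hvlt : ∀ x ∈ S.erase v, v < x := by
      intro x hx
      exact lt_of_le_of_ne (Finset.min'_le _ _ (Finset.mem_of_mem_erase hx))
        (Finset.ne_of_mem_erase hx).symm
    let f : ℕ → Finset (Finset ℕ) := fun x =>
      (A.powersetCard k).filter (fun D' => χ (insert x (insert v D')) = true)
    have hf : ∀ x ∈ S.erase v, f x ∈ (A.powersetCard k).powerset := by
      intro x _
      rw [Finset.mem_powerset]
      exact Finset.filter_subset _ _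
    have hcardt : ((A.powersetCard k).powerset).card ≤ 2 ^ B := by
      rw [Finset.card_powerset, Finset.card_powersetCard]
      refine Nat.pow_le_pow_right (by norm_num) (le_trans ?_ hB)
      exact Nat.choose_le_choose k (by omega)
    have hmul : ((A.powersetCard k).powerset).card * (2 * 2 ^ B) ^ j ≤ (S.erase v).card := by
      rw [Finset.card_erase_of_mem hvS]
      have h1 : (2 * 2 ^ B) ^ (j + 1) = 2 ^ B * (2 * 2 ^ B) ^ j + 2 ^ B * (2 * 2 ^ B) ^ j := by
        rw [pow_succ]; ring
      have h2 : ((A.powersetCard k).powerset).card * (2 * 2 ^ B) ^ j ≤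
          2 ^ B * (2 * 2 ^ B) ^ j := Nat.mul_le_mul_right _ hcardt
      have h3 : 0 < 2 ^ B * (2 * 2 ^ B) ^ j := by positivity
      omega
    obtain ⟨y0, -, hy0⟩ := Finset.exists_le_card_fiber_of_mul_le_card_of_maps_to hf
      ⟨∅, by simp⟩ hmul
    set S' := (S.erase v).filter (fun x => f x = y0) with hS'
    have hS'S : S' ⊆ S := fun x hx => Finset.mem_of_mem_erase (Finset.mem_filter.mp hx).1
    have g1 : ∀ a ∈ insert v A, ∀ s ∈ S', a < s := by
      intro a ha s hs
      have hs' := (Finset.mem_filter.mp hs).1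
      rcases Finset.mem_insert.mp ha with rfl | ha
      · exact hvlt s hs'
      · exact hAS a ha s (hS'S hs)
    have g2 : (insert v A).card + j ≤ M + 1 := by
      have := Finset.card_insert_le v A
      omega
    have g3 : ∀ D ⊆ insert v A, D.card = k + 1 → ∀ x ∈ S', ∀ y ∈ S',
        χ (insert x D) = χ (insert y D) := by
      intro D hD hDk x hx y hy
      by_cases hvD : v ∈ D
      · have hDe : D.erase v ∈ A.powersetCard k := by
          rw [Finset.mem_powersetCard]
          refine ⟨?_, ?_⟩
          · intro d hd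
            have h1 := hD (Finset.mem_of_mem_erase hd)
            exact (Finset.mem_insert.mp h1).resolve_left (Finset.ne_of_mem_erase hd)
          · rw [Finset.card_erase_of_mem hvD, hDk]
            rfl
        have hfx : f x = y0 := (Finset.mem_filter.mp hx).2
        have hfy : f y = y0 := (Finset.mem_filter.mp hy).2
        have hiff : (D.erase v ∈ f x) ↔ (D.erase v ∈ f y) := by rw [hfx, hfy]
        simp only [f, Finset.mem_filter, hDe, true_and, Finset.insert_erase hvD] at hiff
        cases h1 : χ (insert x D) <;> cases h2 : χ (insert y D) <;> simp_all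
      · have hDA : D ⊆ A := fun d hd =>
          (Finset.mem_insert.mp (hD hd)).resolve_left (fun h => hvD (h ▸ hd))
        exact hH D hDA hDk x (hS'S hx) y (hS'S hy)
    obtain ⟨T', hT'S, hT'card, hT'⟩ := ih (insert v A) S' g1 g2 hy0 g3
    have hvT' : v ∉ T' := by
      intro h
      have := (Finset.mem_filter.mp (hT'S h)).1
      exact (Finset.notMem_erase v S) this
    have hvltT : ∀ x ∈ T', v < x := fun x hx => hvlt x (Finset.mem_filter.mp (hT'S hx)).1
    refine ⟨insert v T', ?_, ?_, ?_⟩
    · intro x hx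
      rcases Finset.mem_insert.mp hx with rfl | hx
      · exact hvS
      · exact hS'S (hT'S hx)
    · rw [Finset.card_insert_of_notMem hvT', hT'card]
    · intro D hD hDk x hx y hy hDx hDy
      have hD2 : D ⊆ insert v A ∪ T' := by
        intro d hd
        have := hD hd
        simp only [Finset.mem_union, Finset.mem_insert] at this ⊢
        tauto
      have small : (x = v ∨ y = v) → D ⊆ A := by
        intro hor d hd
        have hlt : d < v := by
          rcases hor with rfl | rfl
          · exact hDx d hd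
          · exact hDy d hd
        have := hD hd
        simp only [Finset.mem_union, Finset.mem_insert] at this
        rcases this with h | h | h
        · exact h
        · omega
        · have := hvltT d h
          omega
      have memS : ∀ z ∈ insert v T', z ∈ S := by
        intro z hz
        rcases Finset.mem_insert.mp hz with rfl | hz
        · exact hvS
        · exact hS'S (hT'S hz)
      by_cases hor : x = v ∨ y = v
      · exact hH D (small hor) hDk x (memS x hx) y (memS y hy)
      · push Not at hor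
        have hx' : x ∈ T' := (Finset.mem_insert.mp hx).resolve_left hor.1
        have hy' : y ∈ T' := (Finset.mem_insert.mp hy).resolve_left hor.2
        exact hT' D hD2 hDk x hx' y hy' hDx hDy

theorem ArrN.step {m k s t : ℕ} (H : ArrN m (k + 1) s t) :
    ArrN ((2 * 2 ^ (m.choose k)) ^ (m + 1)) (k + 2) (s + 1) (t + 1) := by
  intro V hV χ
  obtain ⟨T, hTV, hTcard, hT⟩ := endhom k (m.choose k) m χ le_rfl (m + 1) ∅ V (by simp)
    (by simp) hV (by
      intro D hD hDk
      rw [Finset.subset_empty.mp hD] at hDk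
      simp at hDk)
  have hTne : T.Nonempty := by
    rw [← Finset.card_pos]; omega
  set z := T.max' hTne with hz
  have hzT : z ∈ T := Finset.max'_mem _ _
  have hzlt : ∀ x ∈ T.erase z, x < z := by
    intro x hx
    exact lt_of_le_of_ne (Finset.le_max' _ _ (Finset.mem_of_mem_erase hx))
      (Finset.ne_of_mem_erase hx)
  have aux : ∀ (T0 : Finset ℕ) (r : ℕ) (β : Bool), T0 ⊆ T.erase z → T0.card = r →
      (∀ e ⊆ T0, e.card = k + 1 → χ (insert z e) = β) →
      ∃ T1 ⊆ V, T1.card = r + 1 ∧ ∀ e ⊆ T1, e.card = k + 2 → χ e = β := by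
    intro T0 r β hT0 hr h
    have hzT0 : z ∉ T0 := fun h => (Finset.notMem_erase z T) (hT0 h)
    have hT0T : T0 ⊆ T := fun x hx => Finset.mem_of_mem_erase (hT0 hx)
    refine ⟨insert z T0, ?_, ?_, ?_⟩
    · intro x hx
      rcases Finset.mem_insert.mp hx with rfl | hx
      · exact hTV hzT
      · exact hTV (hT0T hx)
    · rw [Finset.card_insert_of_notMem hzT0, hr]
    · intro e he hek
      have hene : e.Nonempty := by
        rw [← Finset.card_pos]; omega
      set x := e.max' hene with hx
      have hxe : x ∈ e := Finset.max'_mem _ _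
      have hDlt : ∀ d ∈ e.erase x, d < x := by
        intro d hd
        exact lt_of_le_of_ne (Finset.le_max' _ _ (Finset.mem_of_mem_erase hd))
          (Finset.ne_of_mem_erase hd)
      have heT : e ⊆ T := by
        intro y hy
        rcases Finset.mem_insert.mp (he hy) with rfl | h
        · exact hzT
        · exact hT0T h
      have hxz : x ≤ z := Finset.le_max' _ _ (heT hxe)
      have hDcard : (e.erase x).card = k + 1 := by
        rw [Finset.card_erase_of_mem hxe, hek]
        rfl
      have hDT0 : e.erase x ⊆ T0 := by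
        intro d hd
        rcases Finset.mem_insert.mp (he (Finset.mem_of_mem_erase hd)) with h1 | h1
        · have := hDlt d hd
          omega
        · exact h1
      have h1 := hT (e.erase x) (by
          intro d hd
          rw [Finset.empty_union]
          exact hT0T (hDT0 hd)) hDcard x (heT hxe) z hzT hDlt
          (fun d hd => lt_of_lt_of_le (hDlt d hd) hxz)
      rw [Finset.insert_erase hxe] at h1
      rw [h1]
      exact h _ hDT0 hDcard
  rcases H (T.erase z) (by rw [Finset.card_erase_of_mem hzT, hTcard]; rfl)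
    (fun e => χ (insert z e)) with ⟨T0, h0, hr, h⟩ | ⟨T0, h0, hr, h⟩
  · left; exact aux T0 s true h0 hr h
  · right; exact aux T0 t false h0 hr h

theorem ArrN.base : ArrN 3 1 2 2 := by
  intro V hV χ
  have hsum := Finset.card_filter_add_card_filter_not (s := V) (fun v => χ {v} = true)
  have aux : ∀ β : Bool, 2 ≤ (V.filter (fun v => χ {v} = β)).card →
      ∃ T ⊆ V, T.card = 2 ∧ ∀ e ⊆ T, e.card = 1 → χ e = β := by
    intro β h
    obtain ⟨T, hT, hc⟩ := Finset.exists_subset_card_eq h
    refine ⟨T, fun x hx => (Finset.mem_filter.mp (hT hx)).1, hc, fun e he h1 => ?_⟩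
    obtain ⟨v, rfl⟩ := Finset.card_eq_one.mp h1
    exact (Finset.mem_filter.mp (hT (he (Finset.mem_singleton_self v)))).2
  have e2 : (V.filter (fun v => ¬ χ {v} = true)) = V.filter (fun v => χ {v} = false) := by
    apply Finset.filter_congr
    intro x _
    simp
  rw [e2] at hsum
  by_cases h : 2 ≤ (V.filter (fun v => χ {v} = true)).card
  · left; exact aux true h
  · right; exact aux false (by omega)

/-- The sequence of upper bounds. -/
def bd : ℕ → ℕ
  | 0 => 3
  | (k + 1) => (2 * 2 ^ ((bd k).choose k)) ^ (bd k + 1)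

theorem arrN_bd (k : ℕ) : ArrN (bd k) (k + 1) (k + 2) (k + 2) := by
  induction k with
  | zero => exact ArrN.base
  | succ k ih => exact ih.step

theorem four_mul_le (m : ℕ) (hm : 4 ≤ m) : 4 * m ≤ 2 ^ m := by
  induction m, hm using Nat.le_induction with
  | base => norm_num
  | succ m hm ih => rw [pow_succ]; omega

theorem twr_big (k : ℕ) : (16 * (k + 2)) ^ 2 ≤ twr (k + 4) := by
  induction k with
  | zero => norm_num [twr]
  | succ k ih =>
    have h1 : twr (k + 1 + 4) = 2 ^ twr (k + 4) := rfl
    rw [h1]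
    refine le_trans ?_ (Nat.pow_le_pow_right (by norm_num) ih)
    have h4 : 4 ≤ (16 * (k + 2)) ^ 2 := by
      have : 2 ^ 2 ≤ (16 * (k + 2)) ^ 2 := Nat.pow_le_pow_left (by omega) 2
      omega
    refine le_trans ?_ (four_mul_le _ h4)
    have h5 : (16 * (k + 1 + 2)) ^ 2 ≤ (2 * (16 * (k + 2))) ^ 2 :=
      Nat.pow_le_pow_left (by omega) 2
    refine le_trans h5 ?_
    rw [mul_pow]
    norm_num

theorem bd_ge (k : ℕ) : 3 ≤ bd k := by
  cases k with
  | zero => exact le_rfl
  | succ k =>
    have h3 := bd_ge k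
    show 3 ≤ (2 * 2 ^ ((bd k).choose k)) ^ (bd k + 1)
    calc 3 ≤ 2 ^ 2 := by norm_num
      _ ≤ 2 ^ (bd k + 1) := Nat.pow_le_pow_right (by norm_num) (by omega)
      _ ≤ (2 * 2 ^ ((bd k).choose k)) ^ (bd k + 1) := by
        apply Nat.pow_le_pow_left
        have : 1 ≤ 2 ^ ((bd k).choose k) := Nat.one_le_two_pow
        omega

theorem bd_bound (k : ℕ) : (bd k) ^ (4 * (k + 1)) ≤ twr (k + 4) := by
  induction k with
  | zero => norm_num [twr, bd]
  | succ k ih =>
    have h3 := bd_ge k
    set b := bd k with hb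
    have e1 : bd (k + 1) = 2 ^ ((1 + b.choose k) * (b + 1)) := by
      show (2 * 2 ^ ((bd k).choose k)) ^ (bd k + 1) = _
      rw [← hb, pow_mul, pow_add 2 1, pow_one]
    have e2 : twr (k + 1 + 4) = 2 ^ twr (k + 4) := rfl
    rw [e1, e2, ← pow_mul]
    apply Nat.pow_le_pow_right (by norm_num)
    have c1 : b.choose k ≤ b ^ k := Nat.choose_le_pow b k
    have c2 : 1 ≤ b ^ k := Nat.one_le_pow _ _ (by omega)
    have hle : (1 + b.choose k) * (b + 1) * (4 * (k + 1 + 1)) ≤ (16 * (k + 2)) * b ^ (k + 1) := by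
      calc (1 + b.choose k) * (b + 1) * (4 * (k + 1 + 1))
          ≤ (2 * b ^ k) * (2 * b) * (4 * (k + 1 + 1)) := by
            gcongr
            · omega
            · omega
        _ = (16 * (k + 2)) * b ^ (k + 1) := by ring
    refine le_trans hle ?_
    have q1 := twr_big k
    have q2 : (b ^ (k + 1)) ^ 2 ≤ twr (k + 4) := by
      refine le_trans ?_ ih
      rw [← pow_mul]
      exact Nat.pow_le_pow_right (by omega) (by omega)
    have q3 : ((16 * (k + 2)) * b ^ (k + 1)) ^ 2 ≤ (twr (k + 4)) ^ 2 := by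
      rw [mul_pow, sq (twr (k + 4))]
      exact Nat.mul_le_mul q1 q2
    exact (Nat.pow_le_pow_iff_left (by norm_num)).mp q3

theorem upper (k : ℕ) (hk : 1 ≤ k) : ∃ n ≤ twr (k + 3), Arrows n k (k + 1) (k + 1) := by
  obtain ⟨j, rfl⟩ : ∃ j, k = j + 1 := ⟨k - 1, by omega⟩
  refine ⟨bd j, ?_, (arrN_bd j).arrows⟩
  refine le_trans ?_ (bd_bound j)
  have := bd_ge j
  exact Nat.le_self_pow (by omega) _


theorem Good.anti {h n n' q : ℕ} (H : Good h n q) (hn : n' ≤ n) : Good h n' q := by
  obtain ⟨c, h1, h2, h3⟩ := H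
  exact ⟨c, h1, h2, fun a ha1 ha2 => h3 a ha1 (fun i hi => lt_of_lt_of_le (ha2 i hi) hn)⟩

theorem twr_pos (i : ℕ) : 1 ≤ twr i := by
  cases i with
  | zero => exact le_rfl
  | succ i => exact Nat.one_le_two_pow

theorem twr_mono {i j : ℕ} (h : i ≤ j) : twr i ≤ twr j := by
  induction h with
  | refl => exact le_rfl
  | step _ ih => exact ih.trans (Nat.lt_two_pow_self).le

theorem arrows_ramsey (k : ℕ) (hk : 1 ≤ k) :
    Arrows (ramsey k (k + 1) (k + 1)) k (k + 1) (k + 1) := by
  obtain ⟨n, -, hn⟩ := upper k hk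
  exact Nat.sInf_mem (s := {n | Arrows n k (k + 1) (k + 1)}) ⟨n, hn⟩

theorem ramsey_le (k : ℕ) (hk : 1 ≤ k) : ramsey k (k + 1) (k + 1) ≤ twr (k + 3) := by
  obtain ⟨n, hn1, hn⟩ := upper k hk
  exact (Nat.sInf_le hn).trans hn1

theorem lt_ramsey (k : ℕ) (hk : 1 ≤ k) : twr (k / 2 - 6) < ramsey k (k + 1) (k + 1) := by
  have hA := arrows_ramsey k hk
  by_contra hcon
  push Not at hcon
  by_cases h : 1 ≤ k / 2 - 6
  · exact not_arrows ((good_tower (k / 2 - 6) h).anti hcon) (by omega) hA
  · have h0 : k / 2 - 6 = 0 := by omega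
    rw [h0] at hcon
    have h1 : ramsey k (k + 1) (k + 1) ≤ 1 := hcon
    rcases hA (fun _ => true) with ⟨T, hT, -⟩ | ⟨T, hT, -⟩ <;>
    · have := Finset.card_le_univ T
      rw [Fintype.card_fin] at this
      omega

/-- Sanity check: the property `Arrows` is preserved when `n` grows, so `ramsey` is a threshold. -/
theorem Arrows.mono {n n' k s t : ℕ} (H : Arrows n k s t) (hn : n ≤ n') : Arrows n' k s t := by
  intro col
  have aux : ∀ (T : Finset (Fin n)) (r : ℕ) (β : Bool), T.card = r →
      (∀ e ⊆ T, e.card = k → col (e.map (Fin.castLEEmb hn)) = β) →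
      ∃ T' : Finset (Fin n'), T'.card = r ∧ ∀ e ⊆ T', e.card = k → col e = β := by
    intro T r β hT h
    refine ⟨T.map (Fin.castLEEmb hn), by rw [Finset.card_map, hT], fun e he hk => ?_⟩
    obtain ⟨e', he', rfl⟩ := Finset.subset_map_iff.mp he
    exact h e' he' (by rwa [Finset.card_map] at hk)
  rcases H (fun e => col (e.map (Fin.castLEEmb hn))) with ⟨T, hT, h⟩ | ⟨T, hT, h⟩
  · left; exact aux T s true hT h
  · right; exact aux T t false hT h

/-- **The growth of `r_k(k+1)`.**  For every `k ≥ 2` the number `r_k(k+1)` (two colours) exists and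
`twr (k/2 - 6) < r_k(k+1) ≤ twr (k+3)`, where `k/2` is rounded down and `twr 0 = 1`.
Consequently there is a constant `c > 0` such that `r_k(k+1) ≥ twr ⌈c k⌉` for all sufficiently
large `k`, which answers the question affirmatively. -/
theorem result :
    (∀ k : ℕ, 2 ≤ k →
      Arrows (ramsey k (k + 1) (k + 1)) k (k + 1) (k + 1) ∧
      twr (k / 2 - 6) < ramsey k (k + 1) (k + 1) ∧
      ramsey k (k + 1) (k + 1) ≤ twr (k + 3)) ∧
    (∃ c : ℝ, 0 < c ∧ ∃ K : ℕ, ∀ k : ℕ, K ≤ k → twr ⌈c * k⌉₊ ≤ ramsey k (k + 1) (k + 1)) := by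
  refine ⟨fun k hk => ⟨arrows_ramsey k (by omega), lt_ramsey k (by omega),
    ramsey_le k (by omega)⟩, 1 / 3, by norm_num, 60, fun k hk => ?_⟩
  refine le_trans (twr_mono ?_) (lt_ramsey k (by omega)).le
  rw [Nat.ceil_le]
  have h1 : k ≤ 2 * (k / 2) + 1 := by omega
  have h2 : k / 2 - 6 + 6 = k / 2 := by omega
  have h3 : (k : ℝ) ≤ 2 * ((k / 2 : ℕ) : ℝ) + 1 := by exact_mod_cast h1
  have h4 : ((k / 2 - 6 : ℕ) : ℝ) + 6 = ((k / 2 : ℕ) : ℝ) := by exact_mod_cast h2
  have h5 : (60 : ℝ) ≤ k := by exact_mod_cast hk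
  linarith

end Pool.Agent.Results.MP_3aefc9_co.Tower
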